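import Pool.Agent.H74.Shadow.Space

namespace Pool.Agent.H74.Shadow

open Filter Topology Uniformity

abbrev Kt (k : ℕ) := Fin k × Bool × Bool × Bool

abbrev Code := Σ k : ℕ, (Kt k → Kt k → Bool)

/-- the set of labelled infinite walks -/
def Reg (c : Code) : Set Sg :=
  {b | ∃ w : ℕ → Kt c.1, (w 0).2.1 = true ∧
    ∀ i, c.2 (w i) (w (i + 1)) = true ∧ (w (i + 1)).2.2 = (true, b i)}

instance : Countable Code := inferInstance

theorem reg_image {E : Type*} [TopologicalSpace E] (h : E → Sg) {Y : Type*} [UniformSpace Y]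
    [CompactSpace Y] (g : Y → Y) (hsh : Shadowing g) (π : Y → E ⊕ Sg) (hπ : Continuous π)
    (hcomm : ∀ y, π (g y) = tf h (π y)) {C : Set Y} (hC : IsClopen C)
    (hCE : ∀ y ∈ C, ∃ e, π y = Sum.inl e) :
    ∃ c : Code, ∀ b, b ∈ Reg c ↔ ∃ y ∈ C, ∃ e, π y = Sum.inl e ∧ h e = b := by
  classical
  let lab0 : E ⊕ Sg → Bool × Bool := Sum.elim (fun _ => (false, false)) (fun b => (true, b 0))
  have hlab0 : Continuous lab0 :=
    Continuous.sumElim continuous_const (continuous_const.prodMk (continuous_apply 0))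
  let κ : Y → Bool × Bool × Bool := fun y => (C.boolIndicator y, lab0 (π y))
  have hκ : Continuous κ :=
    ((continuous_boolIndicator_iff_isClopen C).2 hC).prodMk (hlab0.comp hπ)
  have hV : {p : Y × Y | κ p.1 = κ p.2} ∈ 𝓤 Y := by
    rw [← nhdsSet_diagonal_eq_uniformity]
    have ho : IsOpen {p : Y × Y | κ p.1 = κ p.2} := by
      have h1 : Continuous fun p : Y × Y => (κ p.1, κ p.2) :=
        (hκ.comp continuous_fst).prodMk (hκ.comp continuous_snd)
      exact (isOpen_discrete {q : (Bool × Bool × Bool) × (Bool × Bool × Bool) | q.1 = q.2}).preimage h1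
    rw [ho.mem_nhdsSet]
    rintro ⟨a, b⟩ hab
    have hab' : a = b := hab
    show κ a = κ b
    rw [hab']
  obtain ⟨D, hD, hsh'⟩ := hsh _ hV
  obtain ⟨W, hW, hWs, hWD⟩ := comp_symm_mem_uniformity_sets hD
  obtain ⟨t, ht⟩ := CompactSpace.elim_nhds_subcover
    (fun y : Y => UniformSpace.ball y W) (fun y => UniformSpace.ball_mem_nhds y hW)
  have hidx : ∀ y : Y, ∃ x : t, (x.1, y) ∈ W := by
    intro y
    have : y ∈ ⋃ x ∈ t, UniformSpace.ball x W := by rw [ht]; trivial
    rw [Set.mem_iUnion₂] at this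
    obtain ⟨x, hx, hxy⟩ := this
    exact ⟨⟨x, hx⟩, hxy⟩
  choose idx hidx using hidx
  let κ' : Y → Kt t.card := fun y => (t.equivFin (idx y), κ y)
  have hκ' : ∀ y y', κ' y = κ' y' → (y, y') ∈ D := by
    intro y y' hyy
    have h1 : idx y = idx y' := t.equivFin.injective (congrArg Prod.fst hyy)
    refine hWD ⟨(idx y).1, hWs.symm _ _ (hidx y), ?_⟩
    rw [h1]
    exact hidx y'
  refine ⟨⟨t.card, fun a a' => decide (∃ y, κ' y = a ∧ κ' (g y) = a')⟩, fun b => ⟨?_, ?_⟩⟩
  · rintro ⟨w, hw0, hw⟩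
    have h1 : ∀ i, ∃ y, κ' y = w i ∧ κ' (g y) = w (i + 1) := fun i => of_decide_eq_true (hw i).1
    choose y hy1 hy2 using h1
    obtain ⟨z, hz⟩ := hsh' y fun i => hκ' _ _ (by rw [hy2 i, hy1 (i + 1)])
    have hz' : ∀ i, κ (y i) = κ (g^[i] z) := hz
    have hκw : ∀ i, κ (y i) = (w i).2 := fun i => congrArg Prod.snd (hy1 i)
    have hzC : z ∈ C := by
      have h2 : C.boolIndicator z = true := by
        have h3 : (κ z).1 = (w 0).2.1 := by
          have := hz' 0
          rw [hκw 0] at this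
          rw [this]
          rfl
        rw [← hw0, ← h3]
      exact (Set.mem_iff_boolIndicator C z).2 h2
    obtain ⟨e, he⟩ := hCE z hzC
    refine ⟨z, hzC, e, he, ?_⟩
    have hiter : ∀ i, π (g^[i] z) = (tf h)^[i] (π z) := by
      intro i
      induction i with
      | zero => rfl
      | succ i ih => rw [Function.iterate_succ_apply', hcomm, ih, Function.iterate_succ_apply']
    funext i
    have h4 : (κ (g^[i + 1] z)).2 = (true, b i) := by
      rw [← hz' (i + 1), hκw (i + 1)]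
      exact (hw i).2
    have h5 : (κ (g^[i + 1] z)).2 = (true, h e i) := by
      show lab0 (π (g^[i + 1] z)) = (true, h e i)
      rw [hiter, he, tf_iter_inl]
      show (true, (shift^[i] (h e)) 0) = (true, h e i)
      rw [shift_iter, zero_add]
    have h6 := h5.symm.trans h4
    exact congrArg Prod.snd h6
  · rintro ⟨y, hyC, e, he, rfl⟩
    have hiter : ∀ i, π (g^[i] y) = (tf h)^[i] (π y) := by
      intro i
      induction i with
      | zero => rfl
      | succ i ih => rw [Function.iterate_succ_apply', hcomm, ih, Function.iterate_succ_apply']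
    refine ⟨fun i => κ' (g^[i] y), ?_, fun i => ⟨?_, ?_⟩⟩
    · show C.boolIndicator y = true
      exact (Set.mem_iff_boolIndicator C y).1 hyC
    · refine decide_eq_true ⟨g^[i] y, rfl, ?_⟩
      show κ' (g (g^[i] y)) = κ' (g^[i + 1] y)
      rw [Function.iterate_succ_apply']
    · show lab0 (π (g^[i + 1] y)) = (true, h e i)
      rw [hiter, he, tf_iter_inl]
      show (true, (shift^[i] (h e)) 0) = (true, h e i)
      rw [shift_iter, zero_add]

/-- the diagonalisation property -/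
def Kill (D : Dta) : Prop :=
  ∀ F : Set (Sg × ℝ), IsClosed F → (∀ b, ∃ t, (b, t) ∈ F) →
    (∀ b t, (b, t) ∈ F → 0 ≤ t ∧ t ≤ 7 / 10) →
    ∃ β, ∀ c : Code, ∃ (n : ℕ) (q : Sg) (y : ℝ), q ≠ β ∧ fd q β = n ∧ (q, y) ∈ F ∧
      (∀ t, (q, t) ∈ F → t ≤ y) ∧
      ((q ∉ Reg c ∧ D.x β n = y) ∨ (q ∈ Reg c ∧ D.x β n = y + 2 / ((n : ℝ) + 10)))

theorem no_ext (D : Dta) (hK : Kill D) {Y : Type*} [UniformSpace Y] [CompactSpace Y] [T2Space Y]
    (hz : ZeroDimensional Y) (g : Y → Y) (hsh : Shadowing g)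
    (π : Y → ESp D ⊕ Sg) (hπ : Continuous π) (hsur : Function.Surjective π)
    (hcomm : ∀ y, π (g y) = tf (pr D) (π y)) : False := by
  classical
  have : TotallySeparatedSpace Y := totallySeparatedSpace_of_t0_of_basis_clopen hz
  have : TotallyDisconnectedSpace Y := TotallySeparatedSpace.totallyDisconnectedSpace Y
  let Φ0 : ESp D ⊕ Sg → Sg × ℝ := Sum.elim (fun e => (e.1.1, e.1.2.1)) (fun b => (b, 1))
  have hΦ0 : Continuous Φ0 := by
    apply Continuous.sumElim
    · exact (continuous_fst.comp continuous_subtype_val).prodMk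
        (continuous_fst.comp (continuous_snd.comp continuous_subtype_val))
    · exact continuous_id.prodMk continuous_const
  let Φ : Y → Sg × ℝ := Φ0 ∘ π
  have hΦ : Continuous Φ := hΦ0.comp hπ
  obtain ⟨C, hC, hZC, hCU⟩ := exists_clopen_of_closed_subset_open
    (Z := {y | (Φ y).2 ≤ 1 / 3}) (U := {y | (Φ y).2 < 2 / 3})
    (isClosed_le (continuous_snd.comp hΦ) continuous_const)
    (isOpen_lt (continuous_snd.comp hΦ) continuous_const) (fun y hy => by
      have hy' : (Φ y).2 ≤ 1 / 3 := hy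
      show (Φ y).2 < 2 / 3
      linarith)
  have hCE : ∀ y ∈ C, ∃ e, π y = Sum.inl e := by
    intro y hy
    rcases hπy : π y with e | b
    · exact ⟨e, rfl⟩
    · have h1 : (Φ y).2 < 2 / 3 := hCU hy
      have h2 : Φ y = (b, 1) := by
        show Φ0 (π y) = (b, 1)
        rw [hπy]
        rfl
      rw [h2] at h1
      norm_num at h1
  have hΦe : ∀ y e, π y = Sum.inl e → Φ y = (e.1.1, e.1.2.1) := by
    intro y e he
    show Φ0 (π y) = _
    rw [he]
    rfl
  obtain ⟨β, hβ⟩ := hK (Φ '' C) (hC.isClosed.isCompact.image hΦ).isClosed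
    (by
      intro b
      obtain ⟨y, hy⟩ := hsur (Sum.inl ⟨lift D b 0, lift_mem D b le_rfl zero_le_one⟩)
      have h1 : Φ y = (b, 0) := hΦe y _ hy
      refine ⟨0, y, hZC ?_, h1⟩
      show (Φ y).2 ≤ 1 / 3
      rw [h1]
      norm_num)
    (by
      rintro b t ⟨y, hy, hyt⟩
      obtain ⟨e, he⟩ := hCE y hy
      have h1 := hΦe y e he
      have h2 : (Φ y).2 < 2 / 3 := hCU hy
      rw [hyt] at h1 h2
      have h3 : t = e.1.2.1 := congrArg Prod.snd h1
      have h4 := e.2.1.1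
      simp only at h2
      constructor
      · rw [h3]; exact h4
      · linarith)
  let φ0 : ESp D ⊕ Sg → ℝ := Sum.elim (fun e => e.1.2.2 β) (fun _ => 0)
  have hφ0 : Continuous φ0 := by
    apply Continuous.sumElim
    · exact (continuous_apply β).comp
        (continuous_snd.comp (continuous_snd.comp continuous_subtype_val))
    · exact continuous_const
  have hφ : Continuous (φ0 ∘ π) := hφ0.comp hπ
  obtain ⟨C', hC', hZC', hCU'⟩ := exists_clopen_of_closed_subset_open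
    (Z := C ∩ {y | 2 / 3 ≤ (φ0 ∘ π) y}) (U := C ∩ {y | 1 / 3 < (φ0 ∘ π) y})
    (hC.isClosed.inter (isClosed_le continuous_const hφ))
    (hC.isOpen.inter (isOpen_lt continuous_const hφ)) (fun y hy => by
      refine ⟨hy.1, ?_⟩
      have hy' : 2 / 3 ≤ (φ0 ∘ π) y := hy.2
      show 1 / 3 < (φ0 ∘ π) y
      linarith)
  obtain ⟨c, hc⟩ := reg_image (pr D) g hsh π hπ hcomm hC' fun y hy => hCE y (hCU' hy).1
  obtain ⟨n, q, y0, hqβ, hfd, hqF, hmax, hcase⟩ := hβ c
  have hval : ∀ e : ESp D, e.1.1 = q → e.1.2.2 β = bump (D.x β n) n e.1.2.1 := by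
    intro e he
    have h1 := e.2.2.2.1 β (by rw [he]; exact hqβ)
    rw [h1, he]
    unfold psi
    rw [hfd]
  rcases hcase with ⟨hq, hx⟩ | ⟨hq, hx⟩
  · obtain ⟨y, hyC, hy⟩ := hqF
    obtain ⟨e, he⟩ := hCE y hyC
    have h1 := hΦe y e he
    rw [hy] at h1
    have h2 : e.1.1 = q := (congrArg Prod.fst h1).symm
    have h3 : e.1.2.1 = y0 := (congrArg Prod.snd h1).symm
    have h4 : e.1.2.2 β = 1 := by
      rw [hval e h2, h3, hx]
      unfold bump
      simp
    apply hq
    rw [hc]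
    refine ⟨y, hZC' ⟨hyC, ?_⟩, e, he, h2⟩
    show 2 / 3 ≤ φ0 (π y)
    rw [he]
    show 2 / 3 ≤ e.1.2.2 β
    rw [h4]
    norm_num
  · rw [hc] at hq
    obtain ⟨y, hyC', e, he, h2⟩ := hq
    obtain ⟨hyC, hφy⟩ := hCU' hyC'
    have h2' : e.1.1 = q := h2
    have h1 := hΦe y e he
    rw [h2'] at h1
    have h3 : e.1.2.1 ≤ y0 := hmax _ ⟨y, hyC, h1⟩
    have h4 : e.1.2.2 β = 0 := by
      rw [hval e h2', hx]
      apply bump_zero
      have hn : (0 : ℝ) < (n : ℝ) + 10 := by positivity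
      have h5 : 2 / ((n : ℝ) + 10) ≤ |e.1.2.1 - (y0 + 2 / ((n : ℝ) + 10))| := by
        rw [abs_sub_comm]
        refine le_trans ?_ (le_abs_self _)
        linarith
      have h6 : ((n : ℝ) + 10) * (2 / ((n : ℝ) + 10)) = 2 := by field_simp
      have h7 := mul_le_mul_of_nonneg_left h5 hn.le
      linarith
    have h8 : 1 / 3 < φ0 (π y) := hφy
    rw [he] at h8
    have h9 : (1 : ℝ) / 3 < e.1.2.2 β := h8
    rw [h4] at h9
    norm_num at h9

theorem seq_exists (y : ℕ → ℝ) (hy : ∀ n, 0 ≤ y n ∧ y n ≤ 7 / 10) (P : ℕ → ℕ → Prop) :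
    ∃ (x : ℕ → ℝ) (p : ℝ), (∀ n, 0 ≤ x n) ∧ (∀ n, x n ≤ 9 / 10) ∧ Tendsto x atTop (𝓝 p) ∧
      ∀ m, ∃ n, (¬ P m n ∧ x n = y n) ∨ (P m n ∧ x n = y n + 2 / ((n : ℝ) + 10)) := by
  classical
  obtain ⟨p, hp, φ, hφ, hlim⟩ := (isCompact_Icc : IsCompact (Set.Icc (0 : ℝ) (7 / 10))).tendsto_subseq
    (x := y) (fun n => ⟨(hy n).1, (hy n).2⟩)
  have hs0 : ∀ n : ℕ, 0 ≤ 2 / ((n : ℝ) + 10) := fun n => by positivity
  have hs1 : ∀ n : ℕ, 2 / ((n : ℝ) + 10) ≤ 2 / 10 := fun n => by
    apply div_le_div_of_nonneg_left (by norm_num) (by norm_num)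
    have : (0 : ℝ) ≤ n := Nat.cast_nonneg n
    linarith
  let x : ℕ → ℝ := fun n => if h : ∃ m, φ m = n then
    (if P h.choose n then y n + 2 / ((n : ℝ) + 10) else y n) else p
  have hx1 : ∀ m, x (φ m) = if P m (φ m) then y (φ m) + 2 / ((φ m : ℝ) + 10) else y (φ m) := by
    intro m
    have h : ∃ m', φ m' = φ m := ⟨m, rfl⟩
    have h1 : h.choose = m := hφ.injective h.choose_spec
    have h2 : x (φ m) = (if P h.choose (φ m) then y (φ m) + 2 / ((φ m : ℝ) + 10) else y (φ m)) :=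
      dif_pos h
    rw [h2, h1]
  have hx2 : ∀ n, (¬ ∃ m, φ m = n) → x n = p := fun n h => dif_neg h
  refine ⟨x, p, ?_, ?_, ?_, ?_⟩
  · intro n
    by_cases h : ∃ m, φ m = n
    · obtain ⟨m, rfl⟩ := h
      rw [hx1]
      split_ifs
      · have := (hy (φ m)).1
        have := hs0 (φ m)
        linarith
      · exact (hy _).1
    · rw [hx2 n h]
      exact hp.1
  · intro n
    by_cases h : ∃ m, φ m = n
    · obtain ⟨m, rfl⟩ := h
      rw [hx1]
      have h3 := (hy (φ m)).2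
      split_ifs
      · have := hs1 (φ m)
        linarith
      · linarith
    · rw [hx2 n h]
      linarith [hp.2]
  · rw [Metric.tendsto_atTop]
    intro ε hε
    obtain ⟨M, hM⟩ := Metric.tendsto_atTop.1 hlim (ε / 2) (by positivity)
    obtain ⟨N, hN⟩ := exists_nat_gt (4 / ε)
    refine ⟨max (φ M) N, fun n hn => ?_⟩
    by_cases h : ∃ m, φ m = n
    · obtain ⟨m, rfl⟩ := h
      have hm : M ≤ m := hφ.le_iff_le.1 (le_trans (le_max_left _ _) hn)
      have h4 : |y (φ m) - p| < ε / 2 := by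
        have := hM m hm
        rwa [Real.dist_eq] at this
      have h5 : 2 / ((φ m : ℝ) + 10) < ε / 2 := by
        have hn' : (N : ℝ) ≤ (φ m : ℝ) := by exact_mod_cast le_trans (le_max_right _ _) hn
        have h6 : 4 / ε < (φ m : ℝ) + 10 := by linarith
        rw [div_lt_iff₀ hε] at h6
        rw [div_lt_iff₀ (by positivity)]
        linarith
      have h7 := hs0 (φ m)
      rw [Real.dist_eq, hx1]
      split_ifs
      · have h8 : y (φ m) + 2 / ((φ m : ℝ) + 10) - p = (y (φ m) - p) + 2 / ((φ m : ℝ) + 10) := by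
          ring
        rw [h8]
        refine lt_of_le_of_lt (abs_add_le _ _) ?_
        rw [abs_of_nonneg h7]
        linarith
      · linarith
    · rw [hx2 n h, dist_self]
      exact hε
  · intro m
    refine ⟨φ m, ?_⟩
    by_cases h : P m (φ m)
    · right
      exact ⟨h, by rw [hx1, if_pos h]⟩
    · left
      exact ⟨h, by rw [hx1, if_neg h]⟩

/-- change one digit -/
def flip (n : ℕ) (β : Sg) : Sg := Function.update β n (!β n)

theorem fd_flip (n : ℕ) (β : Sg) : flip n β ≠ β ∧ fd (flip n β) β = n := by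
  have h1 : flip n β n ≠ β n := by
    unfold flip
    rw [Function.update_self]
    cases β n <;> simp
  refine ⟨fun h => h1 (by rw [h]), fd_eq (fun i hi => ?_) h1⟩
  unfold flip
  rw [Function.update_of_ne (by omega)]

theorem exists_kill : ∃ D : Dta, Kill D := by
  classical
  obtain ⟨bs, hbc, -, hb⟩ := TopologicalSpace.exists_countable_basis (Sg × ℝ)
  have hne : bs.Nonempty := by
    by_contra hcon
    rw [Set.not_nonempty_iff_eq_empty] at hcon
    have h1 := hb.sUnion_eq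
    rw [hcon, Set.sUnion_empty] at h1
    have h2 : ((fun _ => true, 0) : Sg × ℝ) ∈ (∅ : Set (Sg × ℝ)) := by rw [h1]; trivial
    exact h2
  obtain ⟨B, hB⟩ := hbc.exists_eq_range hne
  have : Nonempty Code := ⟨⟨0, fun _ _ => false⟩⟩
  obtain ⟨en, hen⟩ := exists_surjective_nat Code
  let Fof : Sg → Set (Sg × ℝ) := fun β => (⋃ n ∈ {n | β n = true}, B n)ᶜ
  let Q : Sg → ℕ → ℝ → Prop := fun β n y => (flip n β, y) ∈ Fof β ∧
    (∀ t, (flip n β, t) ∈ Fof β → t ≤ y) ∧ 0 ≤ y ∧ y ≤ 7 / 10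
  let yy : Sg → ℕ → ℝ := fun β n => if h : ∃ y, Q β n y then h.choose else 0
  have hyy : ∀ β n, 0 ≤ yy β n ∧ yy β n ≤ 7 / 10 := by
    intro β n
    by_cases h : ∃ y, Q β n y
    · have h1 : yy β n = h.choose := dif_pos h
      rw [h1]
      exact ⟨h.choose_spec.2.2.1, h.choose_spec.2.2.2⟩
    · have h1 : yy β n = 0 := dif_neg h
      rw [h1]
      norm_num
  have hyQ : ∀ β n, (∃ y, Q β n y) → Q β n (yy β n) := by
    intro β n h
    have h1 : yy β n = h.choose := dif_pos h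
    rw [h1]
    exact h.choose_spec
  have hseq := fun β => seq_exists (yy β) (hyy β) (fun m n => flip n β ∈ Reg (en m))
  choose x p hx0 hx1 hlim hkill using hseq
  refine ⟨⟨x, p, hx0, hx1, hlim⟩, ?_⟩
  intro F hF hFne hFb
  let β : Sg := fun n => decide (B n ⊆ Fᶜ)
  have hFβ : Fof β = F := by
    show (⋃ n ∈ {n | β n = true}, B n)ᶜ = F
    rw [compl_eq_comm]
    ext q
    constructor
    · intro hq
      obtain ⟨t, htb, hqt, htF⟩ := hb.exists_subset_of_mem_open hq hF.isOpen_compl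
      rw [hB] at htb
      obtain ⟨n, rfl⟩ := htb
      exact Set.mem_iUnion₂.2 ⟨n, decide_eq_true htF, hqt⟩
    · intro hq
      obtain ⟨n, hn, hqn⟩ := Set.mem_iUnion₂.1 hq
      exact (of_decide_eq_true hn : B n ⊆ Fᶜ) hqn
  refine ⟨β, fun c => ?_⟩
  obtain ⟨m, rfl⟩ := hen c
  obtain ⟨n, hn⟩ := hkill β m
  have hex : ∃ y, Q β n y := by
    have hcl : IsClosed {t : ℝ | (flip n β, t) ∈ F} :=
      hF.preimage (continuous_const.prodMk continuous_id)
    have hsub : {t : ℝ | (flip n β, t) ∈ F} ⊆ Set.Icc 0 (7 / 10) := fun t ht =>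
      ⟨(hFb _ _ ht).1, (hFb _ _ ht).2⟩
    have hcomp : IsCompact {t : ℝ | (flip n β, t) ∈ F} := isCompact_Icc.of_isClosed_subset hcl hsub
    obtain ⟨y, hy⟩ := hcomp.exists_isGreatest (hFne (flip n β))
    refine ⟨y, ?_, ?_, (hFb _ _ hy.1).1, (hFb _ _ hy.1).2⟩
    · rw [hFβ]; exact hy.1
    · intro t ht
      rw [hFβ] at ht
      exact hy.2 ht
  have hQ := hyQ β n hex
  refine ⟨n, flip n β, yy β n, (fd_flip n β).1, (fd_flip n β).2, ?_, ?_, hn⟩
  · have := hQ.1
    rwa [hFβ] at this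
  · intro t ht
    apply hQ.2.1
    rw [hFβ]
    exact ht

end Pool.Agent.H74.Shadow
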