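import Pool.Agent.H74.Shadow.Defs

namespace Pool.Agent.H74.Shadow

open Filter Topology Uniformity

/-- the one-sided full 2-shift -/
abbrev Sg := ℕ → Bool

def shift (b : Sg) : Sg := fun i => b (i + 1)

theorem shift_iter (b : Sg) (n i : ℕ) : (shift^[n] b) i = b (i + n) := by
  induction n generalizing b with
  | zero => rfl
  | succ n ih =>
    rw [Function.iterate_succ_apply, ih]
    show b (i + n + 1) = b (i + (n + 1))
    rfl

theorem continuous_shift : Continuous shift :=
  continuous_pi fun i => continuous_apply (i + 1)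

theorem exists_cylinder {b : Sg} {s : Set Sg} (hs : s ∈ 𝓝 b) :
    ∃ n, ∀ b' : Sg, (∀ i < n, b i = b' i) → b' ∈ s := by
  obtain ⟨t, ⟨x, n, rfl⟩, hbt, hts⟩ :=
    (PiNat.isTopologicalBasis_cylinders (fun _ : ℕ => Bool)).mem_nhds_iff.1 hs
  refine ⟨n, fun b' hb' => hts ?_⟩
  rw [PiNat.mem_cylinder_iff] at hbt ⊢
  intro i hi
  rw [← hb' i hi, hbt i hi]

theorem cyl_mem_nhds (b : Sg) (n : ℕ) : {b' : Sg | ∀ i < n, b i = b' i} ∈ 𝓝 b := by
  have h1 : IsOpen (PiNat.cylinder (E := fun _ => Bool) b n) := PiNat.isOpen_cylinder _ b n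
  refine mem_of_superset (h1.mem_nhds (PiNat.self_mem_cylinder b n)) ?_
  intro b' hb'
  rw [PiNat.mem_cylinder_iff] at hb'
  intro i hi
  exact (hb' i hi).symm

theorem unif_open {E : Type*} [UniformSpace E] [CompactSpace E] (h : E → Sg)
    (hc : Continuous h) (ho : IsOpenMap h) {V : Set (E × E)} (hV : V ∈ 𝓤 E) :
    ∃ M : ℕ, ∀ (e : E) (b' : Sg), (∀ i < M, h e i = b' i) → ∃ e', (e, e') ∈ V ∧ h e' = b' := by
  classical
  obtain ⟨W, hW, hWs, hWV⟩ := comp_symm_mem_uniformity_sets hV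
  have h1 : ∀ e : E, ∃ n, ∀ b' : Sg, (∀ i < n, h e i = b' i) →
      b' ∈ h '' (UniformSpace.ball e W) := fun e =>
    exists_cylinder (ho.image_mem_nhds (UniformSpace.ball_mem_nhds e hW))
  choose n hn using h1
  obtain ⟨t, ht⟩ := CompactSpace.elim_nhds_subcover
    (fun e : E => UniformSpace.ball e W ∩ h ⁻¹' {b' | ∀ i < n e, h e i = b' i})
    (fun e => inter_mem (UniformSpace.ball_mem_nhds e hW)
      (hc.continuousAt.preimage_mem_nhds (cyl_mem_nhds (h e) (n e))))
  refine ⟨t.sup n, fun e b' hb' => ?_⟩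
  have he : e ∈ ⋃ x ∈ t, (UniformSpace.ball x W ∩ h ⁻¹' {b' | ∀ i < n x, h x i = b' i}) := by
    rw [ht]; trivial
  rw [Set.mem_iUnion₂] at he
  obtain ⟨x, hxt, hx1, hx2⟩ := he
  have h2 : ∀ i < n x, h x i = b' i := fun i hi => by
    rw [hx2 i hi]
    exact hb' i (lt_of_lt_of_le hi (Finset.le_sup hxt))
  obtain ⟨e', he', rfl⟩ := hn x b' h2
  refine ⟨e', hWV ?_, rfl⟩
  exact ⟨x, hWs.symm _ _ hx1, he'⟩

/-- the map on the disjoint union -/
def tf {E : Type*} (h : E → Sg) : E ⊕ Sg → E ⊕ Sg :=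
  Sum.elim (fun e => Sum.inr (h e)) (fun b => Sum.inr (shift b))

theorem tf_iter_inl {E : Type*} (h : E → Sg) (e : E) (n : ℕ) :
    (tf h)^[n + 1] (Sum.inl e) = Sum.inr (shift^[n] (h e)) := by
  induction n with
  | zero => rfl
  | succ n ih =>
    rw [Function.iterate_succ_apply', ih, Function.iterate_succ_apply']
    rfl

theorem tf_iter_inr {E : Type*} (h : E → Sg) (b : Sg) (n : ℕ) :
    (tf h)^[n] (Sum.inr b) = Sum.inr (shift^[n] b) := by
  induction n with
  | zero => rfl
  | succ n ih =>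
    rw [Function.iterate_succ_apply', ih, Function.iterate_succ_apply']
    rfl

theorem continuous_tf {E : Type*} [TopologicalSpace E] (h : E → Sg) (hc : Continuous h) :
    Continuous (tf h) :=
  Continuous.sumElim (continuous_inr.comp hc) (continuous_inr.comp continuous_shift)

theorem shadowing_tf {E : Type*} [UniformSpace E] [CompactSpace E] (h : E → Sg)
    (hc : Continuous h) (ho : IsOpenMap h) : Shadowing (tf h) := by
  classical
  intro V hV
  have hVE : {p : E × E | ((Sum.inl p.1 : E ⊕ Sg), (Sum.inl p.2 : E ⊕ Sg)) ∈ V} ∈ 𝓤 E :=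
    uniformContinuous_inl hV
  have hVS : {p : Sg × Sg | ((Sum.inr p.1 : E ⊕ Sg), (Sum.inr p.2 : E ⊕ Sg)) ∈ V} ∈ 𝓤 Sg :=
    uniformContinuous_inr hV
  obtain ⟨M, hM⟩ := unif_open h hc ho hVE
  obtain ⟨N, hN⟩ := unif_open (id : Sg → Sg) continuous_id IsOpenMap.id hVS
  obtain ⟨K, hK⟩ : ∃ K, K = max M N + 1 := ⟨_, rfl⟩
  have hag : {p : Sg × Sg | ∀ i < K, p.1 i = p.2 i} ∈ 𝓤 Sg := by
    have h1 : ∀ i, {p : Sg × Sg | p.1 i = p.2 i} ∈ 𝓤 Sg := by
      intro i
      have h2 : UniformContinuous (fun b : Sg => b i) := Pi.uniformContinuous_proj _ i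
      have h3 : {p : Bool × Bool | p.1 = p.2} ∈ 𝓤 Bool := by
        have := DiscreteUniformity.relId_mem_uniformity (X := Bool)
        refine mem_of_superset this ?_
        rintro ⟨a, b⟩ hab
        exact hab
      exact h2 h3
    have h4 : {p : Sg × Sg | ∀ i < K, p.1 i = p.2 i} =
        ⋂ i ∈ Finset.range K, {p : Sg × Sg | p.1 i = p.2 i} := by
      ext p
      simp
    rw [h4, Filter.biInter_finset_mem]
    exact fun i _ => h1 i
  let D : Set ((E ⊕ Sg) × (E ⊕ Sg)) :=
    {p | (∃ e e', p = (Sum.inl e, Sum.inl e')) ∨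
      ∃ b b' : Sg, p = (Sum.inr b, Sum.inr b') ∧ ∀ i < K, b i = b' i}
  have hD : D ∈ 𝓤 (E ⊕ Sg) := by
    rw [Sum.uniformity, mem_sup, mem_map, mem_map]
    refine ⟨?_, ?_⟩
    · refine mem_of_superset univ_mem ?_
      rintro ⟨e, e'⟩ _
      exact Or.inl ⟨e, e', rfl⟩
    · refine mem_of_superset hag ?_
      rintro ⟨b, b'⟩ hb
      exact Or.inr ⟨b, b', rfl, hb⟩
  refine ⟨D, hD, fun x hx => ?_⟩
  have hx1 : ∀ i, ∃ b b' : Sg, tf h (x i) = Sum.inr b ∧ x (i + 1) = Sum.inr b' ∧
      ∀ j < K, b j = b' j := by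
    intro i
    rcases hx i with ⟨e, e', he⟩ | ⟨b, b', he, hb⟩
    · have h1 : tf h (x i) = Sum.inl e := congrArg Prod.fst he
      rcases hxi : x i with e0 | b0
      · rw [hxi] at h1
        exact absurd h1 (by simp [tf])
      · rw [hxi] at h1
        exact absurd h1 (by simp [tf])
    · exact ⟨b, b', congrArg Prod.fst he, congrArg Prod.snd he, hb⟩
  choose c y hc1 hy1 hcy using hx1
  -- x (i+1) = inr (y i); tf h (x i) = inr (c i)
  have hc2 : ∀ i, c (i + 1) = shift (y i) := by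
    intro i
    have h1 := hc1 (i + 1)
    rw [hy1 i] at h1
    exact (Sum.inr_injective h1).symm
  have hstep : ∀ i, ∀ j, j + 1 ≤ K → y i (j + 1) = y (i + 1) j := by
    intro i j hj
    have h1 := hcy (i + 1) j (by omega)
    rw [hc2] at h1
    exact h1
  have hlong : ∀ j, j < K → ∀ i, y i j = y (i + j) 0 := by
    intro j
    induction j with
    | zero => intro _ i; rfl
    | succ j ih =>
      intro hj i
      rw [hstep i j (by omega), ih (by omega) (i + 1),
        show i + 1 + j = i + (j + 1) by omega]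
  let b : Sg := fun i => y i 0
  have hyb : ∀ i, ∀ j < K, y i j = (shift^[i] b) j := by
    intro i j hj
    rw [shift_iter, hlong j hj i]
    show y (i + j) 0 = y (j + i) 0
    rw [add_comm]
  have hVtail : ∀ i, ((Sum.inr (y i) : E ⊕ Sg), (Sum.inr (shift^[i] b) : E ⊕ Sg)) ∈ V := by
    intro i
    obtain ⟨e', he', rfl⟩ := hN (y i) (shift^[i] b) fun j hj => hyb i j (by omega)
    exact he'
  have hc0 : ∀ j < K, c 0 j = b j := fun j hj => by
    rw [hcy 0 j hj]
    exact hyb 0 j hj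
  rcases hx0 : x 0 with e | b0
  · have h1 : c 0 = h e := by
      have := hc1 0
      rw [hx0] at this
      exact (Sum.inr_injective this).symm
    obtain ⟨e', he', hhe'⟩ := hM e b fun j hj => by
      rw [← h1]
      exact hc0 j (by omega)
    refine ⟨Sum.inl e', fun i => ?_⟩
    rcases i with _ | i
    · rw [hx0]
      exact he'
    · rw [hy1, tf_iter_inl, hhe']
      exact hVtail i
  · have h1 : c 0 = shift b0 := by
      have := hc1 0
      rw [hx0] at this
      exact (Sum.inr_injective this).symm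
    let b' : Sg := fun i => Nat.casesOn i (b0 0) b
    have hb' : shift b' = b := rfl
    refine ⟨Sum.inr b', fun i => ?_⟩
    rcases i with _ | i
    · rw [hx0]
      obtain ⟨e', he', rfl⟩ := hN b0 b' fun j hj => by
        rcases j with _ | j
        · rfl
        · show b0 (j + 1) = b j
          rw [← hc0 j (by omega), h1]
          rfl
      exact he'
    · rw [hy1, tf_iter_inr, Function.iterate_succ_apply, hb']
      exact hVtail i

end Pool.Agent.H74.Shadow
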