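import Mathlib

namespace Pool.Agent.H74.Shadow

open Filter Topology Uniformity

/-- The shadowing property of `(X, f)`: every entourage `V` has an entourage `D` such that
every `D`-pseudo-orbit is `V`-shadowed by the orbit of a point. -/
def Shadowing {X : Type*} [UniformSpace X] (f : X → X) : Prop :=
  ∀ V ∈ 𝓤 X, ∃ D ∈ 𝓤 X, ∀ x : ℕ → X, (∀ i, (f (x i), x (i + 1)) ∈ D) →
    ∃ z, ∀ i, (x i, f^[i] z) ∈ V

/-- The clopen sets form a base of the topology. -/
def ZeroDimensional (X : Type*) [TopologicalSpace X] : Prop :=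
  TopologicalSpace.IsTopologicalBasis {s : Set X | IsClopen s}

end Pool.Agent.H74.Shadow
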