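import Pool.Agent.H74.Shadow.Base

namespace Pool.Agent.H74.Shadow

open Filter Topology Uniformity

/-- first difference -/
noncomputable abbrev fd (b β : Sg) : ℕ := PiNat.firstDiff b β

theorem fd_eq {b β : Sg} {n : ℕ} (h1 : ∀ i < n, b i = β i) (h2 : b n ≠ β n) : fd b β = n := by
  have hne : b ≠ β := fun h => h2 (by rw [h])
  apply le_antisymm
  · by_contra hcon
    exact h2 (PiNat.apply_eq_of_lt_firstDiff (not_le.1 hcon))
  · by_contra hcon
    exact PiNat.apply_firstDiff_ne hne (h1 _ (not_le.1 hcon))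

theorem fd_loc {b β : Sg} (h : b ≠ β) : ∀ᶠ b' in 𝓝 b, b' ≠ β ∧ fd b' β = fd b β := by
  filter_upwards [cyl_mem_nhds b (fd b β + 1)] with b' hb'
  have h1 : ∀ i < fd b β, b' i = β i := fun i hi => by
    rw [← hb' i (by omega)]
    exact PiNat.apply_eq_of_lt_firstDiff hi
  have h2 : b' (fd b β) ≠ β (fd b β) := by
    rw [← hb' (fd b β) (by omega)]
    exact PiNat.apply_firstDiff_ne h
  exact ⟨fun hh => h2 (by rw [hh]), fd_eq h1 h2⟩

theorem fd_large (b : Sg) (N : ℕ) : ∀ᶠ b' in 𝓝 b, b' ≠ b → N ≤ fd b' b := by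
  filter_upwards [cyl_mem_nhds b N] with b' hb' hne
  by_contra hcon
  exact PiNat.apply_firstDiff_ne hne (hb' _ (not_le.1 hcon)).symm

open Classical in
theorem tend_fd {a : ℕ → ℝ} {c : ℝ} (h : Tendsto a atTop (𝓝 c)) (b : Sg) :
    Tendsto (fun b' => if b' = b then c else a (fd b' b)) (𝓝 b) (𝓝 c) := by
  intro s hs
  obtain ⟨N, hN⟩ := eventually_atTop.1 (h hs)
  rw [mem_map]
  filter_upwards [fd_large b N] with b' hb'
  show (if b' = b then c else a (fd b' b)) ∈ s
  by_cases hbb : b' = b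
  · rw [if_pos hbb]
    exact mem_of_mem_nhds hs
  · rw [if_neg hbb]
    exact hN _ (hb' hbb)

structure Dta where
  x : Sg → ℕ → ℝ
  p : Sg → ℝ
  x_nonneg : ∀ β n, 0 ≤ x β n
  x_le : ∀ β n, x β n ≤ 9 / 10
  lim : ∀ β, Tendsto (x β) atTop (𝓝 (p β))

noncomputable def bump (a : ℝ) (n : ℕ) (t : ℝ) : ℝ := max 0 (1 - ((n : ℝ) + 10) * |t - a|)

theorem continuous_bump (a : ℝ) (n : ℕ) : Continuous (bump a n) := by
  unfold bump
  fun_prop

theorem bump_nonneg (a : ℝ) (n : ℕ) (t : ℝ) : 0 ≤ bump a n t := le_max_left _ _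

theorem bump_le (a : ℝ) (n : ℕ) (t : ℝ) : bump a n t ≤ 1 := by
  unfold bump
  refine max_le zero_le_one ?_
  have : 0 ≤ ((n : ℝ) + 10) * |t - a| := by positivity
  linarith

theorem bump_zero {a : ℝ} {n : ℕ} {t : ℝ} (h : 1 ≤ ((n : ℝ) + 10) * |t - a|) :
    bump a n t = 0 := by
  unfold bump
  exact max_eq_left (by linarith)

noncomputable def psi (D : Dta) (β b : Sg) (t : ℝ) : ℝ := bump (D.x β (fd b β)) (fd b β) t

theorem psi_cont (D : Dta) {β b : Sg} (h : b ≠ β) (t : ℝ) :
    ContinuousAt (fun q : Sg × ℝ => psi D β q.1 q.2) (b, t) := by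
  have h1 : ContinuousAt (fun q : Sg × ℝ => bump (D.x β (fd b β)) (fd b β) q.2) (b, t) :=
    ((continuous_bump _ _).comp continuous_snd).continuousAt
  refine h1.congr ?_
  filter_upwards [(fd_loc h).prod_inl_nhds t] with q hq
  unfold psi
  rw [hq.2]

theorem psi_tendsto (D : Dta) {α : Type*} {l : Filter α} {f : α → Sg} {g : α → ℝ} {β b : Sg}
    {t : ℝ} (h : b ≠ β) (hf : Tendsto f l (𝓝 b)) (hg : Tendsto g l (𝓝 t)) :
    Tendsto (fun a => psi D β (f a) (g a)) l (𝓝 (psi D β b t)) := by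
  intro s hs
  have h1 : {q : Sg × ℝ | psi D β q.1 q.2 ∈ s} ∈ 𝓝 (b, t) := psi_cont D h t hs
  have h2 : Tendsto (fun a => (f a, g a)) l (𝓝 (b, t)) := hf.prodMk_nhds hg
  exact h2 h1

theorem psi_zero (D : Dta) {b : Sg} {t : ℝ} (h : t ≠ D.p b) :
    ∀ᶠ q : Sg × ℝ in 𝓝 (b, t), q.1 ≠ b → psi D b q.1 q.2 = 0 := by
  have hδ : 0 < |t - D.p b| := abs_pos.2 (sub_ne_zero.2 h)
  obtain ⟨δ, hδ'⟩ : ∃ δ, δ = |t - D.p b| := ⟨_, rfl⟩
  rw [← hδ'] at hδ
  have h1 : ∀ᶠ n in atTop, |D.x b n - D.p b| < δ / 4 := by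
    have := (Metric.tendsto_atTop.1 (D.lim b)) (δ / 4) (by positivity)
    obtain ⟨N, hN⟩ := this
    filter_upwards [eventually_ge_atTop N] with n hn
    have := hN n hn
    rwa [Real.dist_eq] at this
  have h2 : ∀ᶠ n : ℕ in atTop, 1 ≤ ((n : ℝ) + 10) * (δ / 4) := by
    obtain ⟨N, hN⟩ := exists_nat_gt (4 / δ)
    filter_upwards [eventually_ge_atTop N] with n hn
    have h3 : (N : ℝ) ≤ n := by exact_mod_cast hn
    have h4 : 4 / δ < (n : ℝ) + 10 := by linarith
    rw [div_lt_iff₀ hδ] at h4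
    linarith
  obtain ⟨N, hN⟩ := eventually_atTop.1 (h1.and h2)
  have h3 : ∀ᶠ t' in 𝓝 t, |t' - t| < δ / 4 := by
    have := Metric.ball_mem_nhds t (show 0 < δ / 4 by positivity)
    filter_upwards [this] with t' ht'
    rwa [Metric.mem_ball, Real.dist_eq] at ht'
  filter_upwards [(fd_large b N).prod_inl_nhds t, h3.prod_inr_nhds b] with q hq1 hq2 hne
  obtain ⟨h4, h5⟩ := hN _ (hq1 hne)
  apply bump_zero
  refine h5.trans ?_
  apply mul_le_mul_of_nonneg_left _ (by positivity)
  have h6 : |t - D.p b| ≤ |t - q.2| + |q.2 - D.x b (fd q.1 b)| + |D.x b (fd q.1 b) - D.p b| := by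
    have e1 : t - D.p b = (t - q.2) + (q.2 - D.x b (fd q.1 b)) + (D.x b (fd q.1 b) - D.p b) := by
      ring
    rw [e1]
    exact (abs_add_le _ _).trans (by linarith [abs_add_le (t - q.2) (q.2 - D.x b (fd q.1 b))])
  rw [abs_sub_comm t q.2, ← hδ'] at h6
  linarith

/-- the space -/
def ESet (D : Dta) : Set (Sg × ℝ × (Sg → ℝ)) :=
  {e | (0 ≤ e.2.1 ∧ e.2.1 ≤ 1) ∧ (∀ β, 0 ≤ e.2.2 β ∧ e.2.2 β ≤ 1) ∧
    (∀ β, e.1 ≠ β → e.2.2 β = psi D β e.1 e.2.1) ∧ (e.2.1 ≠ D.p e.1 → e.2.2 e.1 = 0)}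

theorem isClosed_ESet (D : Dta) : IsClosed (ESet D) := by
  rw [isClosed_iff_ultrafilter]
  intro e u hu hE
  have c1 : Tendsto (fun e : Sg × ℝ × (Sg → ℝ) => e.1) u (𝓝 e.1) :=
    (continuous_fst.tendsto e).mono_left hu
  have c2 : Tendsto (fun e : Sg × ℝ × (Sg → ℝ) => e.2.1) u (𝓝 e.2.1) :=
    ((continuous_fst.comp continuous_snd).tendsto e).mono_left hu
  have c3 : ∀ β, Tendsto (fun e : Sg × ℝ × (Sg → ℝ) => e.2.2 β) u (𝓝 (e.2.2 β)) := fun β =>
    (((continuous_apply β).comp (continuous_snd.comp continuous_snd)).tendsto e).mono_left hu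
  have c12 : Tendsto (fun e : Sg × ℝ × (Sg → ℝ) => (e.1, e.2.1)) u (𝓝 (e.1, e.2.1)) :=
    c1.prodMk_nhds c2
  refine ⟨⟨?_, ?_⟩, fun β => ⟨?_, ?_⟩, fun β hβ => ?_, fun ht => ?_⟩
  · exact ge_of_tendsto c2 (by filter_upwards [hE] with e' he' using he'.1.1)
  · exact le_of_tendsto c2 (by filter_upwards [hE] with e' he' using he'.1.2)
  · exact ge_of_tendsto (c3 β) (by filter_upwards [hE] with e' he' using (he'.2.1 β).1)
  · exact le_of_tendsto (c3 β) (by filter_upwards [hE] with e' he' using (he'.2.1 β).2)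
  · have h1 : Tendsto (fun e : Sg × ℝ × (Sg → ℝ) => psi D β e.1 e.2.1) u
        (𝓝 (psi D β e.1 e.2.1)) := psi_tendsto D hβ c1 c2
    refine tendsto_nhds_unique (c3 β) (h1.congr' ?_)
    filter_upwards [hE, c1.eventually (fd_loc hβ)] with e' he' hb
    exact (he'.2.2.1 β hb.1).symm
  · have h1 : ∀ᶠ e' : Sg × ℝ × (Sg → ℝ) in u, e'.2.2 e.1 = 0 := by
      have h2 : ∀ᶠ t' in 𝓝 e.2.1, t' ≠ D.p e.1 := isOpen_ne.mem_nhds ht
      filter_upwards [hE, c12.eventually (psi_zero D ht), c2.eventually h2] with e' he' hz ht'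
      by_cases hb : e'.1 = e.1
      · have := he'.2.2.2 (by rw [hb]; exact ht')
        rwa [hb] at this
      · rw [he'.2.2.1 e.1 hb]
        exact hz hb
    exact tendsto_nhds_unique (c3 e.1) (tendsto_const_nhds.congr' (by
      filter_upwards [h1] with e' he' using he'.symm))

theorem isCompact_ESet (D : Dta) : IsCompact (ESet D) := by
  have h1 : IsCompact ((Set.univ : Set Sg) ×ˢ (Set.Icc (0 : ℝ) 1 ×ˢ
      (Set.univ.pi fun _ : Sg => Set.Icc (0 : ℝ) 1))) :=
    isCompact_univ.prod (isCompact_Icc.prod (isCompact_univ_pi fun _ => isCompact_Icc))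
  refine h1.of_isClosed_subset (isClosed_ESet D) ?_
  rintro e he
  exact ⟨trivial, ⟨he.1.1, he.1.2⟩, fun β _ => ⟨(he.2.1 β).1, (he.2.1 β).2⟩⟩

abbrev ESp (D : Dta) := ↥(ESet D)

instance (D : Dta) : CompactSpace (ESp D) := isCompact_iff_compactSpace.1 (isCompact_ESet D)

/-- projection -/
def pr (D : Dta) : ESp D → Sg := fun e => e.1.1

theorem continuous_pr (D : Dta) : Continuous (pr D) :=
  continuous_fst.comp continuous_subtype_val

open Classical in
/-- a point over `b` with second coordinate `t` -/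
noncomputable def lift (D : Dta) (b : Sg) (t : ℝ) : Sg × ℝ × (Sg → ℝ) :=
  (b, t, fun β => if β = b then 0 else psi D β b t)

theorem lift_mem (D : Dta) (b : Sg) {t : ℝ} (h0 : 0 ≤ t) (h1 : t ≤ 1) : lift D b t ∈ ESet D := by
  classical
  refine ⟨⟨h0, h1⟩, fun β => ?_, fun β hβ => ?_, fun _ => ?_⟩
  · show 0 ≤ (if β = b then 0 else psi D β b t) ∧ (if β = b then 0 else psi D β b t) ≤ 1
    split_ifs
    · exact ⟨le_rfl, zero_le_one⟩
    · exact ⟨bump_nonneg _ _ _, bump_le _ _ _⟩
  · have : β ≠ b := fun h => hβ h.symm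
    show (if β = b then 0 else psi D β b t) = psi D β b t
    rw [if_neg this]
  · show (if b = b then (0 : ℝ) else psi D b b t) = 0
    rw [if_pos rfl]

theorem isOpenMap_pr (D : Dta) : IsOpenMap (pr D) := by
  classical
  rw [isOpenMap_iff_nhds_le]
  rintro ⟨⟨b, t, v⟩, he⟩
  have he' := he
  obtain ⟨⟨ht0, ht1⟩, hv, hvb, hvt⟩ := he
  simp only at ht0 ht1 hv hvb hvt
  -- the moving second coordinate
  let a : ℕ → ℝ := fun n => if t = D.p b then D.x b n + (1 - v b) / ((n : ℝ) + 10) else t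
  have ha0 : ∀ n, 0 ≤ a n ∧ a n ≤ 1 := by
    intro n
    by_cases htp : t = D.p b
    · have e1 : a n = D.x b n + (1 - v b) / ((n : ℝ) + 10) := if_pos htp
      have h1 := D.x_nonneg b n
      have h2 := D.x_le b n
      have h3 : 0 ≤ (1 - v b) / ((n : ℝ) + 10) := by
        apply div_nonneg _ (by positivity)
        linarith [(hv b).2]
      have h4 : (1 - v b) / ((n : ℝ) + 10) ≤ 1 / 10 := by
        rw [div_le_div_iff₀ (by positivity) (by norm_num)]
        have := (hv b).1
        have hn : (0 : ℝ) ≤ n := Nat.cast_nonneg n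
        nlinarith
      rw [e1]
      constructor <;> linarith
    · have e1 : a n = t := if_neg htp
      rw [e1]
      exact ⟨ht0, ht1⟩
  have halim : Tendsto a atTop (𝓝 t) := by
    by_cases htp : t = D.p b
    · have e1 : a = fun n : ℕ => D.x b n + (1 - v b) / ((n : ℝ) + 10) := by
        funext n
        exact if_pos htp
      rw [e1]
      have h1 : Tendsto (fun n : ℕ => (1 - v b) / ((n : ℝ) + 10)) atTop (𝓝 0) := by
        apply Tendsto.div_atTop tendsto_const_nhds
        exact tendsto_atTop_add_const_right _ _ tendsto_natCast_atTop_atTop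
      have h2 := (D.lim b).add h1
      rw [add_zero] at h2
      rwa [htp]
    · have e1 : a = fun _ : ℕ => t := by
        funext n
        exact if_neg htp
      rw [e1]
      exact tendsto_const_nhds
  let τ : Sg → ℝ := fun b' => if b' = b then t else a (fd b' b)
  have hτ : Tendsto τ (𝓝 b) (𝓝 t) := tend_fd halim b
  have hτ0 : ∀ b', 0 ≤ τ b' ∧ τ b' ≤ 1 := by
    intro b'
    by_cases hb : b' = b
    · have e1 : τ b' = t := if_pos hb
      rw [e1]
      exact ⟨ht0, ht1⟩
    · have e1 : τ b' = a (fd b' b) := if_neg hb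
      rw [e1]
      exact ha0 _
  let σ : Sg → ESp D := fun b' => if b' = b then ⟨⟨b, t, v⟩, he'⟩ else
    ⟨lift D b' (τ b'), lift_mem D b' (hτ0 b').1 (hτ0 b').2⟩
  have hσb : σ b = ⟨⟨b, t, v⟩, he'⟩ := if_pos rfl
  have hσpr : ∀ b', pr D (σ b') = b' := by
    intro b'
    by_cases hb : b' = b
    · rw [hb, hσb]
      rfl
    · have e1 : σ b' = ⟨lift D b' (τ b'), lift_mem D b' (hτ0 b').1 (hτ0 b').2⟩ := if_neg hb
      rw [e1]
      rfl
  have hσ : Tendsto σ (𝓝 b) (𝓝 (⟨⟨b, t, v⟩, he'⟩ : ESp D)) := by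
    apply tendsto_subtype_rng.2
    have t1 : Tendsto (fun b' => (σ b').1.1) (𝓝 b) (𝓝 b) := by
      have : (fun b' => (σ b').1.1) = id := by
        funext b'
        exact hσpr b'
      rw [this]
      exact tendsto_id
    have t2 : Tendsto (fun b' => (σ b').1.2.1) (𝓝 b) (𝓝 t) := by
      have : (fun b' => (σ b').1.2.1) = τ := by
        funext b'
        by_cases hb : b' = b
        · rw [hb, hσb]
          exact (if_pos rfl).symm
        · have e1 : σ b' = ⟨lift D b' (τ b'), lift_mem D b' (hτ0 b').1 (hτ0 b').2⟩ := if_neg hb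
          rw [e1]
          rfl
      rw [this]
      exact hτ
    have t3 : Tendsto (fun b' => (σ b').1.2.2) (𝓝 b) (𝓝 v) := by
      rw [tendsto_pi_nhds]
      intro β
      by_cases hβ : β = b
      · subst hβ
        have hv' : ∀ᶠ b' in 𝓝 β, (σ b').1.2.2 β = v β := by
          by_cases htp : t = D.p β
          · filter_upwards with b'
            by_cases hb : b' = β
            · rw [hb, hσb]
            · have e1 : σ b' = ⟨lift D b' (τ b'), lift_mem D b' (hτ0 b').1 (hτ0 b').2⟩ :=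
                if_neg hb
              rw [e1]
              show (if β = b' then 0 else psi D β b' (τ b')) = v β
              rw [if_neg (fun h => hb h.symm)]
              have e2 : τ b' = a (fd b' β) := if_neg hb
              have e3 : a (fd b' β) = D.x β (fd b' β) + (1 - v β) / ((fd b' β : ℝ) + 10) :=
                if_pos htp
              rw [e2, e3]
              unfold psi bump
              have h4 : D.x β (fd b' β) + (1 - v β) / ((fd b' β : ℝ) + 10) - D.x β (fd b' β) =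
                (1 - v β) / ((fd b' β : ℝ) + 10) := by ring
              have h5 : 0 ≤ (1 - v β) / ((fd b' β : ℝ) + 10) := by
                apply div_nonneg _ (by positivity)
                linarith [(hv β).2]
              have h6 : (0 : ℝ) < (fd b' β : ℝ) + 10 := by positivity
              rw [h4, abs_of_nonneg h5, mul_div_cancel₀ _ h6.ne']
              rw [max_eq_right] <;> linarith [(hv β).1]
          · have hv0 : v β = 0 := hvt htp
            have h7 : ∀ᶠ b' in 𝓝 β, b' ≠ β → psi D β b' (τ b') = 0 := by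
              have h8 : Tendsto (fun b' => (b', τ b')) (𝓝 β) (𝓝 (β, t)) :=
                tendsto_id.prodMk_nhds hτ
              exact h8.eventually (psi_zero D htp)
            filter_upwards [h7] with b' hb'
            by_cases hb : b' = β
            · rw [hb, hσb]
            · have e1 : σ b' = ⟨lift D b' (τ b'), lift_mem D b' (hτ0 b').1 (hτ0 b').2⟩ :=
                if_neg hb
              rw [e1]
              show (if β = b' then 0 else psi D β b' (τ b')) = v β
              rw [if_neg (fun h => hb h.symm), hb' hb, hv0]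
        exact tendsto_const_nhds.congr' (by filter_upwards [hv'] with b' hb' using hb'.symm)
      · have hβ' : b ≠ β := fun h => hβ h.symm
        have h8 : Tendsto (fun b' => (b', τ b')) (𝓝 b) (𝓝 (b, t)) := tendsto_id.prodMk_nhds hτ
        have h9 : Tendsto (fun b' => psi D β b' (τ b')) (𝓝 b) (𝓝 (psi D β b t)) :=
          psi_tendsto D hβ' tendsto_id hτ
        rw [hvb β hβ']
        refine h9.congr' ?_
        filter_upwards [fd_loc hβ'] with b' hb'
        by_cases hb : b' = b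
        · rw [hb, hσb]
          have e2 : τ b = t := if_pos rfl
          rw [e2]
          exact (hvb β hβ').symm
        · have e1 : σ b' = ⟨lift D b' (τ b'), lift_mem D b' (hτ0 b').1 (hτ0 b').2⟩ := if_neg hb
          rw [e1]
          show psi D β b' (τ b') = (if β = b' then 0 else psi D β b' (τ b'))
          rw [if_neg (fun h => hb'.1 h.symm)]
    have t4 := t1.prodMk_nhds (t2.prodMk_nhds t3)
    exact t4
  intro s hs
  rw [mem_map] at hs
  have h10 := hσ hs
  rw [mem_map] at h10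
  show s ∈ 𝓝 b
  filter_upwards [h10] with b' hb'
  have h11 : pr D (σ b') ∈ s := hb'
  rwa [hσpr] at h11

end Pool.Agent.H74.Shadow
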